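import Pool.Agent.Helper38.EC.GoalsE1

/-!
# MP_ecc237_nt, packet BDX (bounds of the coefficients `xc`).
-/

set_option autoImplicit false

open EC237 EC237.DX

namespace Pool.Agent.Helper54.EC.E_BDX

lemma c0 (w : ℂ) (α α' : ℤ) (k k' : ℤ × ℤ) :
    xc w 0 α α' k k' = (KA w k)⁻¹ * (KB w k')⁻¹ - (KB w k)⁻¹ * (KA w k')⁻¹ := by
  simp [xc, XX, As, Bs, gser]

lemma c1 (w : ℂ) (α α' : ℤ) (k k' : ℤ × ℤ) :
    xc w 1 α α' k k' = (α:ℂ) * (KA w k)⁻¹ ^ 2 * (KB w k')⁻¹ + (α':ℂ) * (KA w k)⁻¹ * (KB w k')⁻¹ ^ 2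
      - (α:ℂ) * (KB w k)⁻¹ ^ 2 * (KA w k')⁻¹ - (α':ℂ) * (KB w k)⁻¹ * (KA w k')⁻¹ ^ 2 := by
  simp only [xc, XX, As, Bs, gser, map_sub, PowerSeries.coeff_mul, PowerSeries.coeff_mk]
  have h : Finset.HasAntidiagonal.antidiagonal (1:ℕ) = {(0,1),(1,0)} := by decide
  rw [h]
  simp
  ring

lemma c2 (w : ℂ) (α α' : ℤ) (k k' : ℤ × ℤ) :
    xc w 2 α α' k k' = (α:ℂ) ^ 2 * (KA w k)⁻¹ ^ 3 * (KB w k')⁻¹
      + (α:ℂ) * (α':ℂ) * (KA w k)⁻¹ ^ 2 * (KB w k')⁻¹ ^ 2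
      + (α':ℂ) ^ 2 * (KA w k)⁻¹ * (KB w k')⁻¹ ^ 3
      - (α:ℂ) ^ 2 * (KB w k)⁻¹ ^ 3 * (KA w k')⁻¹
      - (α:ℂ) * (α':ℂ) * (KB w k)⁻¹ ^ 2 * (KA w k')⁻¹ ^ 2
      - (α':ℂ) ^ 2 * (KB w k)⁻¹ * (KA w k')⁻¹ ^ 3 := by
  simp only [xc, XX, As, Bs, gser, map_sub, PowerSeries.coeff_mul, PowerSeries.coeff_mk]
  have h : Finset.HasAntidiagonal.antidiagonal (2:ℕ) = {(0,2),(1,1),(2,0)} := by decide
  rw [h]
  simp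
  ring

lemma KBconj (y : ℝ) (k : ℤ × ℤ) : KB (y:ℂ) k = (starRingEnd ℂ) (KA (y:ℂ) k) := by
  simp [KA, KB]
  ring

lemma nKB (y : ℝ) (k : ℤ × ℤ) : ‖KB (y:ℂ) k‖ = ry y k := by
  rw [KBconj, ry, RCLike.norm_conj]

lemma KAadd (w : ℂ) (k k' : ℤ × ℤ) : KA w (k + k') = KA w k + KA w k' := by
  simp [KA]; ring

lemma KBadd (w : ℂ) (k k' : ℤ × ℤ) : KB w (k + k') = KB w k + KB w k' := by
  simp [KB]; ring

lemma ry_pos {y : ℝ} (hy : 0 < y) {k : ℤ × ℤ} (hk : k ≠ 0) : 0 < ry y k := by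
  rw [ry, norm_pos_iff]
  intro h
  apply hk
  have h1 := congrArg Complex.re h
  have h2 := congrArg Complex.im h
  simp [KA] at h1 h2
  have h3 : k.2 = 0 := by
    rcases h2 with h2 | h2
    · exact h2
    · exact absurd h2 hy.ne'
  exact Prod.ext h1 h3

lemma ry_add_le (y : ℝ) (k k' : ℤ × ℤ) : ry y (k + k') ≤ ry y k + ry y k' := by
  rw [ry, ry, ry, KAadd]
  exact norm_add_le _ _

lemma absle {α : ℤ} (h : |α| ≤ 1) : ‖(α:ℂ)‖ ≤ 1 := by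
  rw [Complex.norm_intCast]
  exact_mod_cast h

/-- bounds of the coefficients by products of the norms -/
lemma n0a (y : ℝ) (α α' : ℤ) (k k' : ℤ × ℤ) :
    ‖xc (y:ℂ) 0 α α' k k'‖ ≤ 2 * ((ry y k)⁻¹ * (ry y k')⁻¹) := by
  rw [c0]
  refine (norm_sub_le _ _).trans (le_of_eq ?_)
  rw [norm_mul, norm_mul, norm_inv, norm_inv, norm_inv, norm_inv, nKB, nKB]
  change (ry y k)⁻¹ * (ry y k')⁻¹ + (ry y k)⁻¹ * (ry y k')⁻¹ = _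
  ring

lemma n0b {y : ℝ} (hy : 0 < y) (α α' : ℤ) {k k' : ℤ × ℤ} (hk : k ≠ 0) (hk' : k' ≠ 0) :
    ‖xc (y:ℂ) 0 α α' k k'‖ ≤ 2 * (ry y (k + k') * (ry y k)⁻¹ ^ 2 * (ry y k')⁻¹) := by
  rw [c0]
  have h1 : KA (y:ℂ) k ≠ 0 := by
    have := ry_pos hy hk; rw [ry, norm_pos_iff] at this; exact this
  have h1' : KA (y:ℂ) k' ≠ 0 := by
    have := ry_pos hy hk'; rw [ry, norm_pos_iff] at this; exact this
  have h2 : KB (y:ℂ) k ≠ 0 := by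
    have := ry_pos hy hk; rw [← nKB, norm_pos_iff] at this; exact this
  have h2' : KB (y:ℂ) k' ≠ 0 := by
    have := ry_pos hy hk'; rw [← nKB, norm_pos_iff] at this; exact this
  have e : (KA (y:ℂ) k)⁻¹ * (KB (y:ℂ) k')⁻¹ - (KB (y:ℂ) k)⁻¹ * (KA (y:ℂ) k')⁻¹ =
      (KB (y:ℂ) (k + k') * KA (y:ℂ) k' - KA (y:ℂ) (k + k') * KB (y:ℂ) k') *
      ((KA (y:ℂ) k)⁻¹ * (KB (y:ℂ) k)⁻¹ * (KA (y:ℂ) k')⁻¹ * (KB (y:ℂ) k')⁻¹) := by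
    rw [KAadd, KBadd]
    field_simp
    ring
  rw [e, norm_mul, norm_mul, norm_mul, norm_mul, norm_inv, norm_inv, norm_inv, norm_inv, nKB, nKB]
  have e2 : ‖KB (y:ℂ) (k + k') * KA (y:ℂ) k' - KA (y:ℂ) (k + k') * KB (y:ℂ) k'‖ ≤
      2 * (ry y (k + k') * ry y k') := by
    refine (norm_sub_le _ _).trans (le_of_eq ?_)
    rw [norm_mul, norm_mul, nKB, nKB]
    change ry y (k + k') * ry y k' + ry y (k + k') * ry y k' = _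
    ring
  have p := ry_pos hy hk
  have p' := ry_pos hy hk'
  change _ * ((ry y k)⁻¹ * (ry y k)⁻¹ * (ry y k')⁻¹ * (ry y k')⁻¹) ≤ _
  refine (mul_le_mul_of_nonneg_right e2 (by positivity)).trans (le_of_eq ?_)
  field_simp

lemma n1 (y : ℝ) {α α' : ℤ} (k k' : ℤ × ℤ) (ha : |α| ≤ 1) (ha' : |α'| ≤ 1) :
    ‖xc (y:ℂ) 1 α α' k k'‖ ≤ 2 * ((ry y k)⁻¹ ^ 2 * (ry y k')⁻¹) +
      2 * ((ry y k)⁻¹ * (ry y k')⁻¹ ^ 2) := by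
  rw [c1]
  have a1 := absle ha
  have a1' := absle ha'
  have t : ∀ z : ℂ, ∀ x : ℂ, ∀ c : ℂ, ∀ m n : ℕ, ‖c‖ ≤ 1 → ‖c * z⁻¹ ^ m * x⁻¹ ^ n‖ ≤
      ‖z‖⁻¹ ^ m * ‖x‖⁻¹ ^ n := by
    intro z x c m n hc
    rw [norm_mul, norm_mul, norm_pow, norm_pow, norm_inv, norm_inv]
    have : (0:ℝ) ≤ ‖z‖⁻¹ ^ m := by positivity
    have h2 : (0:ℝ) ≤ ‖x‖⁻¹ ^ n := by positivity
    have h3 : ‖c‖ * ‖z‖⁻¹ ^ m ≤ 1 * ‖z‖⁻¹ ^ m := mul_le_mul_of_nonneg_right hc this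
    calc ‖c‖ * ‖z‖⁻¹ ^ m * ‖x‖⁻¹ ^ n ≤ 1 * ‖z‖⁻¹ ^ m * ‖x‖⁻¹ ^ n := mul_le_mul_of_nonneg_right h3 h2
      _ = _ := by ring
  have b1 := t (KA (y:ℂ) k) (KB (y:ℂ) k') α 2 1 a1
  have b2 := t (KA (y:ℂ) k) (KB (y:ℂ) k') α' 1 2 a1'
  have b3 := t (KB (y:ℂ) k) (KA (y:ℂ) k') α 2 1 a1
  have b4 := t (KB (y:ℂ) k) (KA (y:ℂ) k') α' 1 2 a1'
  rw [nKB] at b1 b2 b3 b4
  simp only [pow_one] at b1 b2 b3 b4
  have e : ∀ k : ℤ × ℤ, ‖KA (y:ℂ) k‖ = ry y k := fun _ => rfl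
  rw [e] at b1 b2 b3 b4
  refine (norm_sub_le _ _).trans ?_
  refine (add_le_add_left (norm_sub_le _ _) _).trans ?_
  refine (add_le_add_left (add_le_add_left (norm_add_le _ _) _) _).trans ?_
  linarith

lemma n2 (y : ℝ) {α α' : ℤ} (k k' : ℤ × ℤ) (ha : |α| ≤ 1) (ha' : |α'| ≤ 1) :
    ‖xc (y:ℂ) 2 α α' k k'‖ ≤ 2 * ((ry y k)⁻¹ ^ 3 * (ry y k')⁻¹) +
      2 * ((ry y k)⁻¹ ^ 2 * (ry y k')⁻¹ ^ 2) + 2 * ((ry y k)⁻¹ * (ry y k')⁻¹ ^ 3) := by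
  rw [c2]
  have a1 := absle ha
  have a1' := absle ha'
  have t : ∀ z : ℂ, ∀ x : ℂ, ∀ c : ℂ, ∀ m n : ℕ, ‖c‖ ≤ 1 → ‖c * z⁻¹ ^ m * x⁻¹ ^ n‖ ≤
      ‖z‖⁻¹ ^ m * ‖x‖⁻¹ ^ n := by
    intro z x c m n hc
    rw [norm_mul, norm_mul, norm_pow, norm_pow, norm_inv, norm_inv]
    have : (0:ℝ) ≤ ‖z‖⁻¹ ^ m := by positivity
    have h2 : (0:ℝ) ≤ ‖x‖⁻¹ ^ n := by positivity
    have h3 : ‖c‖ * ‖z‖⁻¹ ^ m ≤ 1 * ‖z‖⁻¹ ^ m := mul_le_mul_of_nonneg_right hc this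
    calc ‖c‖ * ‖z‖⁻¹ ^ m * ‖x‖⁻¹ ^ n ≤ 1 * ‖z‖⁻¹ ^ m * ‖x‖⁻¹ ^ n := mul_le_mul_of_nonneg_right h3 h2
      _ = _ := by ring
  have q1 : ‖(α:ℂ) ^ 2‖ ≤ 1 := by
    rw [norm_pow]; exact pow_le_one₀ (norm_nonneg _) a1
  have q3 : ‖(α':ℂ) ^ 2‖ ≤ 1 := by
    rw [norm_pow]; exact pow_le_one₀ (norm_nonneg _) a1'
  have q2 : ‖(α:ℂ) * (α':ℂ)‖ ≤ 1 := by
    rw [norm_mul]; exact mul_le_one₀ a1 (norm_nonneg _) a1'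
  have b1 := t (KA (y:ℂ) k) (KB (y:ℂ) k') _ 3 1 q1
  have b2 := t (KA (y:ℂ) k) (KB (y:ℂ) k') _ 2 2 q2
  have b3 := t (KA (y:ℂ) k) (KB (y:ℂ) k') _ 1 3 q3
  have b4 := t (KB (y:ℂ) k) (KA (y:ℂ) k') _ 3 1 q1
  have b5 := t (KB (y:ℂ) k) (KA (y:ℂ) k') _ 2 2 q2
  have b6 := t (KB (y:ℂ) k) (KA (y:ℂ) k') _ 1 3 q3
  rw [nKB] at b1 b2 b3 b4 b5 b6
  simp only [pow_one] at b1 b2 b3 b4 b5 b6
  have e : ∀ k : ℤ × ℤ, ‖KA (y:ℂ) k‖ = ry y k := fun _ => rfl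
  rw [e] at b1 b2 b3 b4 b5 b6
  refine (norm_sub_le _ _).trans ?_
  refine (add_le_add_left (norm_sub_le _ _) _).trans ?_
  refine (add_le_add_left (add_le_add_left (norm_sub_le _ _) _) _).trans ?_
  refine (add_le_add_left (add_le_add_left (add_le_add_left (norm_add_le _ _) _) _) _).trans ?_
  refine (add_le_add_left (add_le_add_left (add_le_add_left (add_le_add_left
    (norm_add_le _ _) _) _) _) _).trans ?_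
  linarith

/-- real inequalities with square roots: `r = u ^ 2`, `r' = p ^ 2`, `S = q ^ 2` -/
lemma real0 {X u p q : ℝ} (hu : 0 < u) (hp : 0 < p) (hq : 0 < q) (h : p ≤ u) (hS : q ^ 2 ≤ 2 * u ^ 2)
    (h1 : X ≤ 2 * ((u ^ 2)⁻¹ * (p ^ 2)⁻¹)) (h2 : X ≤ 2 * (q ^ 2 * (u ^ 2)⁻¹ ^ 2 * (p ^ 2)⁻¹)) :
    X ≤ 12 * q * (p ^ 5)⁻¹ := by
  rcases le_total p q with hc | hc
  · refine h1.trans ?_
    have e1 : 2 * ((u ^ 2)⁻¹ * (p ^ 2)⁻¹) ≤ 4 * ((q ^ 2)⁻¹ * (p ^ 2)⁻¹) := by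
      have : (u ^ 2)⁻¹ ≤ 2 * (q ^ 2)⁻¹ := by
        rw [inv_le_comm₀ (by positivity) (by positivity), mul_inv, inv_inv]
        linarith
      have hp2 : 0 ≤ (p ^ 2)⁻¹ := by positivity
      nlinarith [mul_le_mul_of_nonneg_right this hp2]
    refine e1.trans ?_
    have e2 : p ^ 3 ≤ q ^ 3 := pow_le_pow_left₀ hp.le hc 3
    rw [← mul_inv, ← div_eq_mul_inv, ← div_eq_mul_inv, div_le_div_iff₀ (by positivity) (by positivity)]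
    have e3 : 0 ≤ p ^ 2 := by positivity
    nlinarith [mul_le_mul_of_nonneg_right e2 e3, pow_pos hp 5, pow_pos hq 3, mul_nonneg (pow_pos hq 3).le e3]
  · refine h2.trans ?_
    have e1 : (u ^ 2)⁻¹ ^ 2 ≤ (p ^ 2)⁻¹ ^ 2 := by
      apply pow_le_pow_left₀ (by positivity)
      apply inv_anti₀ (by positivity)
      exact pow_le_pow_left₀ hp.le h 2
    have e2 : 2 * (q ^ 2 * (u ^ 2)⁻¹ ^ 2 * (p ^ 2)⁻¹) ≤ 2 * (q ^ 2 * (p ^ 2)⁻¹ ^ 2 * (p ^ 2)⁻¹) := by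
      have hp2 : 0 ≤ (p ^ 2)⁻¹ := by positivity
      have := mul_le_mul_of_nonneg_right (mul_le_mul_of_nonneg_left e1 (sq_nonneg q)) hp2
      linarith
    refine e2.trans ?_
    have e3 : q ^ 2 * (p ^ 2)⁻¹ ^ 2 * (p ^ 2)⁻¹ = q * (q / p) * (p ^ 5)⁻¹ := by
      field_simp
    rw [e3]
    have e4 : q / p ≤ 1 := by rw [div_le_one hp]; exact hc
    have e5 : 0 ≤ (p ^ 5)⁻¹ := by positivity
    have e6 : q * (q / p) ≤ q * 1 := mul_le_mul_of_nonneg_left e4 hq.le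
    nlinarith [mul_le_mul_of_nonneg_right e6 e5, mul_nonneg hq.le e5]

lemma real1 {X u p q : ℝ} (hu : 0 < u) (hp : 0 < p) (hq : 0 < q) (h : p ≤ u) (hS : q ^ 2 ≤ 2 * u ^ 2)
    (h1 : X ≤ 2 * ((u ^ 2)⁻¹ ^ 2 * (p ^ 2)⁻¹) + 2 * ((u ^ 2)⁻¹ * (p ^ 2)⁻¹ ^ 2)) :
    X ≤ 12 * q⁻¹ * (p ^ 5)⁻¹ := by
  have hq2 : q ≤ 2 * u := by nlinarith
  have a0 : u⁻¹ ≤ p⁻¹ := inv_anti₀ hp h
  have a1 : u⁻¹ ≤ 2 * q⁻¹ := by
    rw [inv_le_comm₀ hu (by positivity), mul_inv, inv_inv]; linarith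
  have pu : 0 < u⁻¹ := by positivity
  have pp : 0 < p⁻¹ := by positivity
  have pq : 0 < q⁻¹ := by positivity
  set U := u⁻¹
  set P := p⁻¹
  set Q := q⁻¹
  have e1 : (u ^ 2)⁻¹ = U ^ 2 := by rw [inv_pow]
  have e2 : (p ^ 2)⁻¹ = P ^ 2 := by rw [inv_pow]
  have e3 : (p ^ 5)⁻¹ = P ^ 5 := by rw [inv_pow]
  rw [e1, e2] at h1
  rw [e3]
  have f1 : (U ^ 2) ^ 2 * P ^ 2 ≤ U * P ^ 5 := by
    have : U ^ 3 ≤ P ^ 3 := pow_le_pow_left₀ pu.le a0 3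
    calc (U ^ 2) ^ 2 * P ^ 2 = U ^ 3 * (U * P ^ 2) := by ring
      _ ≤ P ^ 3 * (U * P ^ 2) := mul_le_mul_of_nonneg_right this (by positivity)
      _ = _ := by ring
  have f2 : U ^ 2 * (P ^ 2) ^ 2 ≤ U * P ^ 5 := by
    calc U ^ 2 * (P ^ 2) ^ 2 = U * (U * P ^ 4) := by ring
      _ ≤ P * (U * P ^ 4) := mul_le_mul_of_nonneg_right a0 (by positivity)
      _ = _ := by ring
  have f3 : U * P ^ 5 ≤ 2 * Q * P ^ 5 := mul_le_mul_of_nonneg_right a1 (by positivity)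
  have f4 : 0 ≤ Q * P ^ 5 := by positivity
  linarith

lemma real2 {X u p q s : ℝ} (hu : 0 < u) (hp : 0 < p) (hq : 0 < q) (hs : 0 < s) (h : p ≤ u)
    (hS : q ^ 2 ≤ 2 * u ^ 2) (hy : s ≤ p)
    (h1 : X ≤ 2 * ((u ^ 2)⁻¹ ^ 3 * (p ^ 2)⁻¹) + 2 * ((u ^ 2)⁻¹ ^ 2 * (p ^ 2)⁻¹ ^ 2) +
      2 * ((u ^ 2)⁻¹ * (p ^ 2)⁻¹ ^ 3)) :
    X ≤ 12 * (s⁻¹ * (q ^ 2)⁻¹) * (p ^ 5)⁻¹ := by
  have a0 : u⁻¹ ≤ p⁻¹ := inv_anti₀ hp h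
  have a1 : (u ^ 2)⁻¹ ≤ 2 * (q ^ 2)⁻¹ := by
    rw [inv_le_comm₀ (by positivity) (by positivity), mul_inv, inv_inv]; linarith
  have a2 : p⁻¹ ≤ s⁻¹ := inv_anti₀ hs hy
  have pu : 0 < u⁻¹ := by positivity
  have pp : 0 < p⁻¹ := by positivity
  have pq : 0 < q⁻¹ := by positivity
  have ps : 0 < s⁻¹ := by positivity
  have e1 : (u ^ 2)⁻¹ = u⁻¹ ^ 2 := by rw [inv_pow]
  have e2 : (p ^ 2)⁻¹ = p⁻¹ ^ 2 := by rw [inv_pow]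
  have e3 : (p ^ 5)⁻¹ = p⁻¹ ^ 5 := by rw [inv_pow]
  have e4 : (q ^ 2)⁻¹ = q⁻¹ ^ 2 := by rw [inv_pow]
  rw [e1, e4] at a1
  rw [e1, e2] at h1
  rw [e3, e4]
  set U := u⁻¹
  set P := p⁻¹
  set Q := q⁻¹
  set T := s⁻¹
  have f1 : (U ^ 2) ^ 3 * P ^ 2 ≤ U ^ 2 * P ^ 6 := by
    have : U ^ 4 ≤ P ^ 4 := pow_le_pow_left₀ pu.le a0 4
    calc (U ^ 2) ^ 3 * P ^ 2 = U ^ 4 * (U ^ 2 * P ^ 2) := by ring
      _ ≤ P ^ 4 * (U ^ 2 * P ^ 2) := mul_le_mul_of_nonneg_right this (by positivity)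
      _ = _ := by ring
  have f2 : (U ^ 2) ^ 2 * (P ^ 2) ^ 2 ≤ U ^ 2 * P ^ 6 := by
    have : U ^ 2 ≤ P ^ 2 := pow_le_pow_left₀ pu.le a0 2
    calc (U ^ 2) ^ 2 * (P ^ 2) ^ 2 = U ^ 2 * (U ^ 2 * P ^ 4) := by ring
      _ ≤ P ^ 2 * (U ^ 2 * P ^ 4) := mul_le_mul_of_nonneg_right this (by positivity)
      _ = _ := by ring
  have f3 : U ^ 2 * (P ^ 2) ^ 3 = U ^ 2 * P ^ 6 := by ring
  have f4 : U ^ 2 * P ^ 6 ≤ 2 * Q ^ 2 * P ^ 6 := mul_le_mul_of_nonneg_right a1 (by positivity)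
  have f5 : Q ^ 2 * P ^ 6 ≤ T * Q ^ 2 * P ^ 5 := by
    calc Q ^ 2 * P ^ 6 = P * (Q ^ 2 * P ^ 5) := by ring
      _ ≤ T * (Q ^ 2 * P ^ 5) := mul_le_mul_of_nonneg_right a2 (by positivity)
      _ = _ := by ring
  nlinarith

lemma rpA {r : ℝ} (hr : 0 < r) : r ^ (-(5 / 2) : ℝ) = (Real.sqrt r ^ 5)⁻¹ := by
  rw [Real.rpow_neg hr.le, Real.sqrt_eq_rpow, ← Real.rpow_natCast, ← Real.rpow_mul hr.le]
  norm_num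

lemma rpB {r : ℝ} : r ^ (1 / 2 : ℝ) = Real.sqrt r := (Real.sqrt_eq_rpow r).symm

lemma rpC {r : ℝ} (hr : 0 < r) : r ^ (-(1 / 2) : ℝ) = (Real.sqrt r)⁻¹ := by
  rw [Real.rpow_neg hr.le, ← Real.sqrt_eq_rpow]

lemma rpD {r : ℝ} (hr : 0 < r) : r ^ (-1 : ℝ) = (Real.sqrt r ^ 2)⁻¹ := by
  rw [Real.rpow_neg hr.le, Real.rpow_one, Real.sq_sqrt hr.le]

/-- the case `ry y k' ≤ ry y k` -/
lemma half {y : ℝ} (hy : 0 < y) {α α' : ℤ} {k k' : ℤ × ℤ} (ha : |α| ≤ 1) (ha' : |α'| ≤ 1)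
    (hk : k ≠ 0) (hk' : k' ≠ 0) (hs : k + k' ≠ 0) (hle : ry y k' ≤ ry y k) :
  ‖xc (y:ℂ) 0 α α' k k'‖ ≤ 12 * ry y (k + k') ^ (1 / 2 : ℝ) * ry y k' ^ (-(5 / 2) : ℝ) ∧
  ‖xc (y:ℂ) 1 α α' k k'‖ ≤ 12 * ry y (k + k') ^ (-(1 / 2) : ℝ) * ry y k' ^ (-(5 / 2) : ℝ) ∧
  (y ≤ ry y k → y ≤ ry y k' → ‖xc (y:ℂ) 2 α α' k k'‖ ≤
    12 * (y ^ (-(1 / 2) : ℝ) * ry y (k + k') ^ (-1 : ℝ)) * ry y k' ^ (-(5 / 2) : ℝ)) := by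
  have p := ry_pos hy hk
  have p' := ry_pos hy hk'
  have pS := ry_pos hy hs
  have hS : ry y (k + k') ≤ 2 * ry y k := by
    have := ry_add_le y k k'
    linarith
  have b0a := n0a y α α' k k'
  have b0b := n0b hy α α' hk hk'
  have b1 := n1 y k k' ha ha'
  have b2 := n2 y k k' ha ha'
  rw [rpA p', rpB, rpC pS, rpC hy, rpD pS]
  have su := Real.sqrt_pos.2 p
  have sp := Real.sqrt_pos.2 p'
  have sq := Real.sqrt_pos.2 pS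
  have sy := Real.sqrt_pos.2 hy
  have eu : Real.sqrt (ry y k) ^ 2 = ry y k := Real.sq_sqrt p.le
  have ep : Real.sqrt (ry y k') ^ 2 = ry y k' := Real.sq_sqrt p'.le
  have eq : Real.sqrt (ry y (k + k')) ^ 2 = ry y (k + k') := Real.sq_sqrt pS.le
  have hpu : Real.sqrt (ry y k') ≤ Real.sqrt (ry y k) := Real.sqrt_le_sqrt hle
  have hSq : Real.sqrt (ry y (k + k')) ^ 2 ≤ 2 * Real.sqrt (ry y k) ^ 2 := by rw [eu, eq]; exact hS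
  refine ⟨?_, ?_, ?_⟩
  · apply real0 su sp sq hpu hSq
    · rw [eu, ep]; exact b0a
    · rw [eu, ep, eq]; exact b0b
  · apply real1 su sp sq hpu hSq
    rw [eu, ep]; exact b1
  · intro _ hyk'
    have hys : Real.sqrt y ≤ Real.sqrt (ry y k') := Real.sqrt_le_sqrt hyk'
    apply real2 su sp sq sy hpu hSq hys
    rw [eu, ep]; exact b2

lemma swp (w : ℂ) (α α' : ℤ) (k k' : ℤ × ℤ) : xc w 0 α α' k k' = -xc w 0 α' α k' k ∧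
    xc w 1 α α' k k' = -xc w 1 α' α k' k ∧ xc w 2 α α' k k' = -xc w 2 α' α k' k := by
  refine ⟨?_, ?_, ?_⟩
  · rw [c0, c0]; ring
  · rw [c1, c1]; ring
  · rw [c2, c2]; ring

theorem thm : EC237.DX.G_BDX := by
  intro y hy α α' k k' ha ha' hk hk' hs
  have p := ry_pos hy hk
  have p' := ry_pos hy hk'
  have pS := ry_pos hy hs
  have A : 0 ≤ ry y k ^ (-(5 / 2) : ℝ) := Real.rpow_nonneg p.le _
  have A' : 0 ≤ ry y k' ^ (-(5 / 2) : ℝ) := Real.rpow_nonneg p'.le _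
  have B0 : 0 ≤ 12 * ry y (k + k') ^ (1 / 2 : ℝ) := mul_nonneg (by norm_num) (Real.rpow_nonneg pS.le _)
  have B1 : 0 ≤ 12 * ry y (k + k') ^ (-(1 / 2) : ℝ) :=
    mul_nonneg (by norm_num) (Real.rpow_nonneg pS.le _)
  have B2 : 0 ≤ 12 * (y ^ (-(1 / 2) : ℝ) * ry y (k + k') ^ (-1 : ℝ)) :=
    mul_nonneg (by norm_num) (mul_nonneg (Real.rpow_nonneg hy.le _) (Real.rpow_nonneg pS.le _))
  rcases le_total (ry y k') (ry y k) with h | h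
  · obtain ⟨h0, h1, h2⟩ := half hy ha ha' hk hk' hs h
    refine ⟨h0.trans ?_, h1.trans ?_, fun u v => (h2 u v).trans ?_⟩
    · exact mul_le_mul_of_nonneg_left (by linarith) B0
    · exact mul_le_mul_of_nonneg_left (by linarith) B1
    · exact mul_le_mul_of_nonneg_left (by linarith) B2
  · have hs' : k' + k ≠ 0 := by rwa [add_comm]
    obtain ⟨h0, h1, h2⟩ := half hy ha' ha hk' hk hs' h
    obtain ⟨s0, s1, s2⟩ := swp (y:ℂ) α α' k k'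
    rw [s0, s1, s2, norm_neg, norm_neg, norm_neg]
    rw [add_comm k' k] at h0 h1 h2
    refine ⟨h0.trans ?_, h1.trans ?_, fun u v => (h2 v u).trans ?_⟩
    · exact mul_le_mul_of_nonneg_left (by linarith) B0
    · exact mul_le_mul_of_nonneg_left (by linarith) B1
    · exact mul_le_mul_of_nonneg_left (by linarith) B2

end Pool.Agent.Helper54.EC.E_BDX
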